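import Pool.Agent.Lib.MP_cff830_lc.NR.Prod
import Pool.Agent.Lib.MP_cff830_lc.MR.Rel

/-!
# The relaxations are additive over disjoint unions, and monotone
-/

set_option autoImplicit false
set_option linter.unusedSectionVars false

namespace Pool.Agent.Lib.MP_cff830_lc.MR.NR

open Finset

open Classical in
theorem sum_split {q n : ℕ} (f : Fin q ↪ Fin n) (g : Fin n → ℝ) :
    ∑ v, g v = (∑ v, if v ∈ Set.range f then 0 else g v) + ∑ a, g (f a) := by
  have h1 : ∑ a, g (f a) = ∑ v, if v ∈ Set.range f then g v else 0 := by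
    rw [← Finset.sum_filter, ← Finset.sum_map Finset.univ f g]
    refine Finset.sum_congr ?_ fun _ _ => rfl
    ext v
    simp
  rw [h1, ← Finset.sum_add_distrib]
  refine Finset.sum_congr rfl fun v _ => ?_
  split_ifs <;> simp

/-- The value of a linear programme with the feasible points `P`. -/
noncomputable def val {V : Type} [Fintype V] (P : (V → ℝ) → Prop) (w : V → ℝ) : ℝ :=
  sInf {m | ∃ x, P x ∧ m = ∑ v, w v * x v}

open Classical in
theorem val_add {q n : ℕ} (f : Fin q ↪ Fin n) (P Q : (Fin n → ℝ) → Prop)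
    (S : (Fin q → ℝ) → Prop) (hP0 : ∀ x, P x → ∀ v, 0 ≤ x v) (hQ0 : ∀ x, Q x → ∀ v, 0 ≤ x v)
    (hS0 : ∀ x, S x → ∀ v, 0 ≤ x v) (hP : ∃ x, P x) (hQ : ∃ x, Q x) (hS : ∃ x, S x)
    (h1 : ∀ x, P x → Q (fun v => if v ∈ Set.range f then 0 else x v))
    (h2 : ∀ x, P x → S (fun a => x (f a)))
    (h3 : ∀ y z, Q y → S z → ∃ x, P x ∧ (∀ v, v ∉ Set.range f → x v = y v) ∧
      ∀ a, x (f a) = z a) (w : Fin n → ℝ) (hw : ∀ v, 0 ≤ w v) :
    val P w = val Q w + val S fun a => w (f a) := by
  have bP := RelAux.bdd_of w hP0 hw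
  have bQ := RelAux.bdd_of w hQ0 hw
  have bS := RelAux.bdd_of (fun a => w (f a)) hS0 fun a => hw (f a)
  apply le_antisymm
  · obtain ⟨y₀, hy₀⟩ := hQ
    obtain ⟨z₀, hz₀⟩ := hS
    have key : ∀ y z, Q y → S z → val P w ≤ (∑ v, w v * y v) + ∑ a, w (f a) * z a := by
      intro y z hy hz
      obtain ⟨x, hx, e1, e2⟩ := h3 y z hy hz
      refine (csInf_le bP ⟨x, hx, rfl⟩).trans ?_
      rw [sum_split f fun v => w v * x v]
      refine add_le_add (Finset.sum_le_sum fun v _ => ?_) (le_of_eq ?_)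
      · split_ifs with hv
        · exact mul_nonneg (hw v) (hQ0 y hy v)
        · rw [e1 v hv]
      · exact Finset.sum_congr rfl fun a _ => by rw [e2]
    have k1 : ∀ z, S z → val P w - ∑ a, w (f a) * z a ≤ val Q w := by
      intro z hz
      refine le_csInf ⟨_, y₀, hy₀, rfl⟩ ?_
      rintro m ⟨y, hy, rfl⟩
      linarith [key y z hy hz]
    have k2 : val P w - val Q w ≤ val S fun a => w (f a) := by
      refine le_csInf ⟨_, z₀, hz₀, rfl⟩ ?_
      rintro m ⟨z, hz, rfl⟩
      linarith [k1 z hz]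
    linarith
  · obtain ⟨x₀, hx₀⟩ := hP
    refine le_csInf ⟨_, x₀, hx₀, rfl⟩ ?_
    rintro m ⟨x, hx, rfl⟩
    rw [sum_split f fun v => w v * x v]
    refine add_le_add ?_ (csInf_le bS ⟨_, h2 x hx, rfl⟩)
    refine (csInf_le bQ ⟨_, h1 x hx, rfl⟩).trans (le_of_eq ?_)
    refine Finset.sum_congr rfl fun v _ => ?_
    split_ifs <;> simp

theorem sdp_eq_val {V : Type} [Fintype V] [DecidableEq V] (G : SimpleGraph V) (k : ℕ)
    (w : V → ℝ) : sdpValue G k w =
      val (fun x => ∃ μ : Finset V → Finset V → ℝ, IsSolution G k μ ∧ ∀ v, x v = μ {v} {v}) w := by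
  unfold sdpValue val
  congr 1
  ext m
  constructor
  · rintro ⟨μ, hμ, rfl⟩
    exact ⟨fun v => μ {v} {v}, ⟨μ, hμ, fun v => rfl⟩, rfl⟩
  · rintro ⟨x, ⟨μ, hμ, hx⟩, rfl⟩
    exact ⟨μ, hμ, Finset.sum_congr rfl fun v _ => by rw [hx v]⟩

section

variable {q n : ℕ} (f : Fin q ↪ Fin n) (e : SimpleGraph (Fin n))
  (he : ∀ u v, e.Adj u v → u ∉ Set.range f) (X : SimpleGraph (Fin q))

theorem adj_iff (u v : Fin n) : (e ⊔ X.map f).Adj u v ↔
    e.Adj u v ∨ ∃ a b, X.Adj a b ∧ f a = u ∧ f b = v := by
  rw [SimpleGraph.sup_adj, SimpleGraph.map_adj]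

include he

open Classical in
theorem edge_add (w : Fin n → ℝ) (hw : ∀ v, 0 ≤ w v) :
    edgeLP (e ⊔ X.map f) w = edgeLP e w + edgeLP X fun a => w (f a) := by
  refine val_add f (fun x => (∀ v, 0 ≤ x v) ∧ ∀ a b, (e ⊔ X.map f).Adj a b → 1 ≤ x a + x b)
    (fun x => (∀ v, 0 ≤ x v) ∧ ∀ a b, e.Adj a b → 1 ≤ x a + x b)
    (fun x => (∀ v, 0 ≤ x v) ∧ ∀ a b, X.Adj a b → 1 ≤ x a + x b)
    (fun x h => h.1) (fun x h => h.1) (fun x h => h.1)
    ⟨fun _ => 1, fun _ => zero_le_one, fun _ _ _ => by norm_num⟩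
    ⟨fun _ => 1, fun _ => zero_le_one, fun _ _ _ => by norm_num⟩
    ⟨fun _ => 1, fun _ => zero_le_one, fun _ _ _ => by norm_num⟩ ?_ ?_ ?_ w hw
  · rintro x ⟨h1, h2⟩
    refine ⟨fun v => ?_, fun a b hab => ?_⟩
    · show (0 : ℝ) ≤ if v ∈ Set.range f then 0 else x v
      split_ifs
      · exact le_rfl
      · exact h1 v
    · show (1 : ℝ) ≤ (if a ∈ Set.range f then 0 else x a) + if b ∈ Set.range f then 0 else x b
      rw [if_neg (he a b hab), if_neg (he b a hab.symm)]
      exact h2 a b ((adj_iff f e X a b).2 (Or.inl hab))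
  · rintro x ⟨h1, h2⟩
    exact ⟨fun a => h1 _, fun a b hab => h2 _ _ ((adj_iff f e X _ _).2
      (Or.inr ⟨a, b, hab, rfl, rfl⟩))⟩
  · rintro y z ⟨h1, h2⟩ ⟨h3, h4⟩
    refine ⟨fun v => if h : ∃ a, f a = v then z h.choose else y v, ⟨fun v => ?_, ?_⟩, ?_, ?_⟩
    · show (0 : ℝ) ≤ if h : ∃ a, f a = v then z h.choose else y v
      split_ifs
      · exact h3 _
      · exact h1 _
    · intro u v huv
      show (1 : ℝ) ≤ (if h : ∃ a, f a = u then z h.choose else y u) +
        if h : ∃ a, f a = v then z h.choose else y v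
      rcases (adj_iff f e X u v).1 huv with h | ⟨a, b, hab, rfl, rfl⟩
      · have hu : ¬ ∃ a, f a = u := he u v h
        have hv : ¬ ∃ a, f a = v := he v u h.symm
        rw [dif_neg hu, dif_neg hv]
        exact h2 u v h
      · have ha : ∃ a', f a' = f a := ⟨a, rfl⟩
        have hb : ∃ a', f a' = f b := ⟨b, rfl⟩
        rw [dif_pos ha, dif_pos hb, f.injective ha.choose_spec, f.injective hb.choose_spec]
        exact h4 a b hab
    · intro v hv
      exact dif_neg hv
    · intro a
      have ha : ∃ a', f a' = f a := ⟨a, rfl⟩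
      show (if h : ∃ a', f a' = f a then z h.choose else y (f a)) = z a
      rw [dif_pos ha, f.injective ha.choose_spec]

open Classical in
theorem local_add (k : ℕ) (w : Fin n → ℝ) (hw : ∀ v, 0 ≤ w v) :
    localLP (e ⊔ X.map f) k w = localLP e k w + localLP X k fun a => w (f a) := by
  refine val_add f (LocallyFeasible (e ⊔ X.map f) k) (LocallyFeasible e k)
    (LocallyFeasible X k) (fun x h => h.1) (fun x h => h.1) (fun x h => h.1)
    ⟨_, RelAux.feasible_cover _ k Finset.univ (RelAux.cover_univ _)⟩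
    ⟨_, RelAux.feasible_cover _ k Finset.univ (RelAux.cover_univ _)⟩
    ⟨_, RelAux.feasible_cover _ k Finset.univ (RelAux.cover_univ _)⟩ ?_ ?_ ?_ w hw
  · rintro x ⟨h1, h2⟩
    refine ⟨fun v => ?_, fun S hS => ?_⟩
    · show (0 : ℝ) ≤ if v ∈ Set.range f then 0 else x v
      split_ifs
      · exact le_rfl
      · exact h1 v
    · let L : (S → ℝ) →ₗ[ℝ] (S → ℝ) :=
        { toFun := fun y v => if (v : Fin n) ∈ Set.range f then 0 else y v
          map_add' := by
            intro y z
            ext v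
            show (if (v : Fin n) ∈ Set.range f then (0 : ℝ) else y v + z v) =
              (if (v : Fin n) ∈ Set.range f then 0 else y v) +
                if (v : Fin n) ∈ Set.range f then 0 else z v
            split_ifs <;> simp
          map_smul' := by
            intro c y
            ext v
            show (if (v : Fin n) ∈ Set.range f then (0 : ℝ) else c * y v) =
              c * if (v : Fin n) ∈ Set.range f then 0 else y v
            split_ifs <;> simp }
      have h4 : L '' coverVectors ((e ⊔ X.map f).induce S) ⊆ coverVectors (e.induce S) := by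
        rintro _ ⟨y, ⟨hy1, hy2⟩, rfl⟩
        refine ⟨fun v => ?_, fun u v huv => ?_⟩
        · show (if (v : Fin n) ∈ Set.range f then (0 : ℝ) else y v) = 0 ∨
            (if (v : Fin n) ∈ Set.range f then (0 : ℝ) else y v) = 1
          split_ifs
          · exact Or.inl rfl
          · exact hy1 v
        · show (if (u : Fin n) ∈ Set.range f then (0 : ℝ) else y u) = 1 ∨
            (if (v : Fin n) ∈ Set.range f then (0 : ℝ) else y v) = 1
          have huv' : e.Adj u v := huv
          rw [if_neg (he _ _ huv'), if_neg (he _ _ huv'.symm)]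
          exact hy2 u v ((adj_iff f e X _ _).2 (Or.inl huv'))
      have h5 : L (fun v : S => x v) ∈ convexHull ℝ (coverVectors (e.induce S)) := by
        refine convexHull_mono h4 ?_
        rw [← L.image_convexHull]
        exact ⟨_, h2 S hS, rfl⟩
      exact h5
  · rintro x ⟨h1, h2⟩
    refine ⟨fun a => h1 _, fun S hS => ?_⟩
    have hS' : (f '' S).ncard ≤ k := by rwa [Set.ncard_image_of_injective S f.injective]
    let L : (↥(f '' S) → ℝ) →ₗ[ℝ] (S → ℝ) :=
      { toFun := fun y a => y ⟨f a, Set.mem_image_of_mem f a.2⟩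
        map_add' := fun y z => rfl
        map_smul' := fun c y => rfl }
    have h4 : L '' coverVectors ((e ⊔ X.map f).induce (f '' S)) ⊆
        coverVectors (X.induce S) := by
      rintro _ ⟨y, ⟨hy1, hy2⟩, rfl⟩
      refine ⟨fun a => hy1 _, fun a b hab => hy2 _ _ ?_⟩
      exact (adj_iff f e X _ _).2 (Or.inr ⟨a, b, hab, rfl, rfl⟩)
    have h5 : L (fun v : ↥(f '' S) => x v) ∈ convexHull ℝ (coverVectors (X.induce S)) := by
      refine convexHull_mono h4 ?_
      rw [← L.image_convexHull]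
      exact ⟨_, h2 _ hS', rfl⟩
    exact h5
  · rintro y z ⟨h1, h2⟩ ⟨h3, h4⟩
    refine ⟨fun v => if h : ∃ a, f a = v then z h.choose else y v, ⟨fun v => ?_, ?_⟩, ?_, ?_⟩
    · show (0 : ℝ) ≤ if h : ∃ a, f a = v then z h.choose else y v
      split_ifs
      · exact h3 _
      · exact h1 _
    · intro S hS
      have hS' : (f ⁻¹' S).ncard ≤ k := by
        rw [← Set.ncard_image_of_injective _ f.injective]
        exact (Set.ncard_le_ncard (Set.image_preimage_subset f S) S.toFinite).trans hS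
      have hmem : ∀ (v : S) (h : ∃ a, f a = (v : Fin n)), h.choose ∈ f ⁻¹' S := by
        intro v h
        show f h.choose ∈ S
        rw [h.choose_spec]
        exact v.2
      let L : ((S → ℝ) × (↥(f ⁻¹' S) → ℝ)) →ₗ[ℝ] (S → ℝ) :=
        { toFun := fun p v => if h : ∃ a, f a = (v : Fin n) then p.2 ⟨h.choose, hmem v h⟩
            else p.1 v
          map_add' := by
            intro p p'
            ext v
            simp only [Prod.fst_add, Prod.snd_add, Pi.add_apply]
            split_ifs <;> simp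
          map_smul' := by
            intro c p
            ext v
            simp only [Prod.smul_fst, Prod.smul_snd, Pi.smul_apply, RingHom.id_apply]
            split_ifs <;> simp }
      have h6 : L '' (coverVectors (e.induce S) ×ˢ coverVectors (X.induce (f ⁻¹' S))) ⊆
          coverVectors ((e ⊔ X.map f).induce S) := by
        rintro _ ⟨p, ⟨⟨hy1, hy2⟩, ⟨hz1, hz2⟩⟩, rfl⟩
        refine ⟨fun v => ?_, fun u v huv => ?_⟩
        · show (if h : ∃ a, f a = (v : Fin n) then p.2 ⟨h.choose, hmem v h⟩ else p.1 v) = 0 ∨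
            (if h : ∃ a, f a = (v : Fin n) then p.2 ⟨h.choose, hmem v h⟩ else p.1 v) = 1
          split_ifs
          · exact hz1 _
          · exact hy1 _
        · show (if h : ∃ a, f a = (u : Fin n) then p.2 ⟨h.choose, hmem u h⟩ else p.1 u) = 1 ∨
            (if h : ∃ a, f a = (v : Fin n) then p.2 ⟨h.choose, hmem v h⟩ else p.1 v) = 1
          rcases (adj_iff f e X _ _).1 huv with h | ⟨a, b, hab, hau, hbv⟩
          · have hu : ¬ ∃ a, f a = (u : Fin n) := he _ _ h
            have hv : ¬ ∃ a, f a = (v : Fin n) := he _ _ h.symm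
            rw [dif_neg hu, dif_neg hv]
            exact hy2 u v h
          · have ha : ∃ a', f a' = (u : Fin n) := ⟨a, hau⟩
            have hb : ∃ a', f a' = (v : Fin n) := ⟨b, hbv⟩
            rw [dif_pos ha, dif_pos hb]
            have ea : ha.choose = a := f.injective (ha.choose_spec.trans hau.symm)
            have eb : hb.choose = b := f.injective (hb.choose_spec.trans hbv.symm)
            refine hz2 _ _ ?_
            show X.Adj ha.choose hb.choose
            rw [ea, eb]
            exact hab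
      have h7 : L (fun v : S => y v, fun a : ↥(f ⁻¹' S) => z a) ∈
          convexHull ℝ (coverVectors ((e ⊔ X.map f).induce S)) := by
        refine convexHull_mono h6 ?_
        rw [← L.image_convexHull, convexHull_prod]
        exact ⟨_, ⟨h2 S hS, h4 _ hS'⟩, rfl⟩
      exact h7
    · intro v hv
      exact dif_neg hv
    · intro a
      have ha : ∃ a', f a' = f a := ⟨a, rfl⟩
      show (if h : ∃ a', f a' = f a then z h.choose else y (f a)) = z a
      rw [dif_pos ha, f.injective ha.choose_spec]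

open Classical in
theorem sdp_add (k : ℕ) (w : Fin n → ℝ) (hw : ∀ v, 0 ≤ w v) :
    sdpValue (e ⊔ X.map f) k w = sdpValue e k w + sdpValue X k fun a => w (f a) := by
  rw [sdp_eq_val, sdp_eq_val, sdp_eq_val]
  have hZ : ∀ v, v ∈ Finset.univ.map f ↔ v ∈ Set.range f := by
    intro v
    simp
  have h0 : ∀ {V : Type} [Fintype V] [DecidableEq V] {G : SimpleGraph V}
      {μ : Finset V → Finset V → ℝ}, IsSolution G k μ → μ ∅ ∅ = 1 := by
    intro V _ _ G μ h
    have := h.total ∅ (by simp)
    simpa using this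
  refine val_add f _ _ _ ?_ ?_ ?_ ?_ ?_ ?_ ?_ ?_ ?_ w hw
  · rintro x ⟨μ, hμ, hx⟩ v
    rw [hx]
    exact hμ.nonneg _ _
  · rintro x ⟨μ, hμ, hx⟩ v
    rw [hx]
    exact hμ.nonneg _ _
  · rintro x ⟨μ, hμ, hx⟩ v
    rw [hx]
    exact hμ.nonneg _ _
  · exact ⟨_, _, RelAux.solution_cover _ k Finset.univ (RelAux.cover_univ _), fun v => rfl⟩
  · exact ⟨_, _, RelAux.solution_cover _ k Finset.univ (RelAux.cover_univ _), fun v => rfl⟩
  · exact ⟨_, _, RelAux.solution_cover _ k Finset.univ (RelAux.cover_univ _), fun v => rfl⟩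
  · rintro x ⟨μ, hμ, hx⟩
    have hem : IsVertexCover (⊥ : SimpleGraph (Fin n)) ∅ := fun u v h => h.elim
    refine ⟨prd μ _ (Finset.univ.map f), prd_solution (solution_mono hμ le_sup_left)
      (RelAux.solution_cover _ k ∅ hem) _ ?_, fun v => ?_⟩
    · intro u v huv
      refine Or.inl ⟨?_, ?_, huv⟩
      · rw [hZ]
        exact he u v huv
      · rw [hZ]
        exact he v u huv.symm
    · show (if v ∈ Set.range f then 0 else x v) = _
      unfold prd
      by_cases hv : v ∈ Set.range f
      · have e1 : ({v} : Finset (Fin n)) ∩ Finset.univ.map f = {v} := by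
          rw [Finset.inter_eq_left, Finset.singleton_subset_iff, hZ]
          exact hv
        rw [if_pos hv, e1]
        show (0 : ℝ) = _ * (if ({v} : Finset (Fin n)) ∩ ∅ = {v} then (1 : ℝ) else 0)
        rw [Finset.inter_empty, if_neg (Finset.singleton_ne_empty v).symm, mul_zero]
      · have e1 : ({v} : Finset (Fin n)) ∩ Finset.univ.map f = ∅ := by
          refine Finset.singleton_inter_of_notMem ?_
          rw [hZ]
          exact hv
        have e2 : ({v} : Finset (Fin n)) \ Finset.univ.map f = {v} := by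
          rw [Finset.sdiff_eq_self_iff_disjoint, Finset.disjoint_iff_inter_eq_empty]
          exact e1
        rw [if_neg hv, e1, e2]
        show x v = _ * (if (∅ : Finset (Fin n)) ∩ ∅ = ∅ then (1 : ℝ) else 0)
        rw [Finset.inter_empty, if_pos rfl, mul_one]
        exact hx v
  · rintro x ⟨μ, hμ, hx⟩
    refine ⟨Pull.pull f μ, pull_solution hμ f fun a b hab =>
      (adj_iff f e X _ _).2 (Or.inr ⟨a, b, hab, rfl, rfl⟩), fun a => ?_⟩
    rw [Pull.pull_self, Finset.image_singleton]
    exact hx (f a)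
  · rintro y z ⟨μ, hμ, hy⟩ ⟨ν, hν, hz⟩
    rcases Nat.eq_zero_or_pos q with hq | hq
    · subst hq
      refine ⟨y, ⟨μ, ?_, hy⟩, fun v _ => rfl, fun a => a.elim0⟩
      have : e ⊔ X.map f = e := by
        ext u v
        rw [adj_iff]
        constructor
        · rintro (h | ⟨a, -⟩)
          · exact h
          · exact a.elim0
        · exact Or.inl
      rw [this]
      exact hμ
    · have hf : ∀ a, (if h : ∃ b, f b = f a then h.choose else ⟨0, hq⟩) = a := by
        intro a
        have ha : ∃ b, f b = f a := ⟨a, rfl⟩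
        rw [dif_pos ha]
        exact f.injective ha.choose_spec
      set φ : Fin n → Fin q := fun v => if h : ∃ a, f a = v then h.choose else ⟨0, hq⟩ with hφ
      have hν' : IsSolution (X.map f) k (Pull.pull φ ν) := by
        refine pull_solution hν φ ?_
        intro u v huv
        rw [SimpleGraph.map_adj] at huv
        obtain ⟨a, b, hab, rfl, rfl⟩ := huv
        show X.Adj (φ (f a)) (φ (f b))
        rw [hφ]
        simp only
        rw [hf a, hf b]
        exact hab
      refine ⟨_, ⟨prd μ (Pull.pull φ ν) (Finset.univ.map f), prd_solution hμ hν' _ ?_,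
        fun v => rfl⟩, ?_, ?_⟩
      · intro u v huv
        rcases (adj_iff f e X u v).1 huv with h | ⟨a, b, hab, rfl, rfl⟩
        · refine Or.inl ⟨?_, ?_, h⟩
          · rw [hZ]
            exact he u v h
          · rw [hZ]
            exact he v u h.symm
        · refine Or.inr ⟨?_, ?_, ?_⟩
          · rw [hZ]
            exact ⟨a, rfl⟩
          · rw [hZ]
            exact ⟨b, rfl⟩
          · rw [SimpleGraph.map_adj]
            exact ⟨a, b, hab, rfl, rfl⟩
      · intro v hv
        have e1 : ({v} : Finset (Fin n)) ∩ Finset.univ.map f = ∅ := by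
          refine Finset.singleton_inter_of_notMem ?_
          rw [hZ]
          exact hv
        have e2 : ({v} : Finset (Fin n)) \ Finset.univ.map f = {v} := by
          rw [Finset.sdiff_eq_self_iff_disjoint, Finset.disjoint_iff_inter_eq_empty]
          exact e1
        show prd μ (Pull.pull φ ν) (Finset.univ.map f) {v} {v} = y v
        unfold prd
        rw [e1, e2, h0 hν', mul_one, hy]
      · intro a
        have e1 : ({f a} : Finset (Fin n)) ∩ Finset.univ.map f = {f a} := by
          rw [Finset.inter_eq_left, Finset.singleton_subset_iff, hZ]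
          exact ⟨a, rfl⟩
        have e2 : ({f a} : Finset (Fin n)) \ Finset.univ.map f = ∅ := by
          rw [Finset.sdiff_eq_empty_iff_subset, Finset.singleton_subset_iff, hZ]
          exact ⟨a, rfl⟩
        show prd μ (Pull.pull φ ν) (Finset.univ.map f) {f a} {f a} = z a
        unfold prd
        rw [e1, e2, h0 hμ, one_mul, Pull.pull_self, Finset.image_singleton, hz]
        have : φ (f a) = a := hf a
        rw [this]

end

/-! ### Monotonicity -/

theorem val_mono {V : Type} [Fintype V] {P Q : (V → ℝ) → Prop} (h : ∀ x, Q x → P x)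
    (hP0 : ∀ x, P x → ∀ v, 0 ≤ x v) (hQ : ∃ x, Q x) (w : V → ℝ) (hw : ∀ v, 0 ≤ w v) :
    val P w ≤ val Q w := by
  obtain ⟨x₀, hx₀⟩ := hQ
  refine le_csInf ⟨_, x₀, hx₀, rfl⟩ ?_
  rintro m ⟨x, hx, rfl⟩
  exact csInf_le (RelAux.bdd_of w hP0 hw) ⟨x, h x hx, rfl⟩

theorem edge_mono {V : Type} [Fintype V] {G G' : SimpleGraph V} (h : G ≤ G') (w : V → ℝ)
    (hw : ∀ v, 0 ≤ w v) : edgeLP G w ≤ edgeLP G' w :=
  val_mono (P := fun x => (∀ v, 0 ≤ x v) ∧ ∀ a b, G.Adj a b → 1 ≤ x a + x b)
    (Q := fun x => (∀ v, 0 ≤ x v) ∧ ∀ a b, G'.Adj a b → 1 ≤ x a + x b)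
    (fun _ hx => ⟨hx.1, fun a b hab => hx.2 a b (h hab)⟩) (fun _ hx => hx.1)
    ⟨fun _ => 1, fun _ => zero_le_one, fun _ _ _ => by norm_num⟩ w hw

theorem local_mono {V : Type} [Fintype V] {G G' : SimpleGraph V} (h : G ≤ G') (k : ℕ)
    (w : V → ℝ) (hw : ∀ v, 0 ≤ w v) : localLP G k w ≤ localLP G' k w := by
  classical
  refine val_mono (P := LocallyFeasible G k) (Q := LocallyFeasible G' k) ?_ (fun _ hx => hx.1)
    ⟨_, RelAux.feasible_cover _ k Finset.univ (RelAux.cover_univ _)⟩ w hw
  rintro x ⟨h1, h2⟩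
  refine ⟨h1, fun S hS => convexHull_mono ?_ (h2 S hS)⟩
  rintro y ⟨hy1, hy2⟩
  exact ⟨hy1, fun u v huv => hy2 u v (h huv)⟩

theorem sdp_mono {V : Type} [Fintype V] [DecidableEq V] {G G' : SimpleGraph V} (h : G ≤ G')
    (k : ℕ) (w : V → ℝ) (hw : ∀ v, 0 ≤ w v) : sdpValue G k w ≤ sdpValue G' k w := by
  have e1 : ∀ G : SimpleGraph V, sdpValue G k w =
      val (fun x => ∃ μ : Finset V → Finset V → ℝ, IsSolution G k μ ∧
        ∀ v, x v = μ {v} {v}) w := by
    intro G
    unfold sdpValue val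
    congr 1
    ext m
    constructor
    · rintro ⟨μ, hμ, rfl⟩
      exact ⟨fun v => μ {v} {v}, ⟨μ, hμ, fun v => rfl⟩, rfl⟩
    · rintro ⟨x, ⟨μ, hμ, hx⟩, rfl⟩
      exact ⟨μ, hμ, Finset.sum_congr rfl fun v _ => by rw [hx v]⟩
  rw [e1, e1]
  refine val_mono ?_ ?_ ?_ w hw
  · rintro x ⟨μ, hμ, hx⟩
    exact ⟨μ, solution_mono hμ h, hx⟩
  · rintro x ⟨μ, hμ, hx⟩ v
    rw [hx]
    exact hμ.nonneg _ _
  · exact ⟨_, _, RelAux.solution_cover _ k Finset.univ (RelAux.cover_univ _), fun v => rfl⟩

end Pool.Agent.Lib.MP_cff830_lc.MR.NR
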