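import Pool.Agent.Lib.MP_cff830_lc.MR.Defs

/-!
# Circuits with NOT gates over relaxations of vertex cover: the definitions of the statement
-/

set_option autoImplicit false

namespace Pool.Agent.Lib.MP_cff830_lc.MR

open Finset

/-- Inputs of the circuits with NOT gates: the value, for some nonnegative weights, of the standard
linear programme or of a level `3, ..., k` of the Sherali-Adams LP or SDP hierarchy, and
nondecreasing functions of the subgraph induced on some set `S` of at most `r ^ (1 / 3)`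
vertices. -/
def IsValue {n : ℕ} (k r : ℕ) (g : SimpleGraph (Fin n) → ℝ) : Prop :=
  (∃ w : Fin n → ℝ, (∀ v, 0 ≤ w v) ∧ ((∀ G, g G = edgeLP G w) ∨
    ∃ j, 3 ≤ j ∧ j ≤ k ∧ ((∀ G, g G = localLP G j w) ∨ ∀ G, g G = sdpValue G j w))) ∨
  ∃ S : Finset (Fin n), S.card ^ 3 ≤ r ∧
    ∀ G G' : SimpleGraph (Fin n), (∀ u ∈ S, ∀ v ∈ S, G.Adj u v → G'.Adj u v) → g G ≤ g G'

/-- What gate number `i` may use: an input or the output of a gate with smaller number. -/
def IsWire {n s : ℕ} (k r : ℕ) (F : Fin s → SimpleGraph (Fin n) → ℝ) (i : ℕ)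
    (g : SimpleGraph (Fin n) → ℝ) : Prop :=
  IsValue k r g ∨ ∃ j : Fin s, (j : ℕ) < i ∧ g = F j

/-- `F 0, ..., F (s-1)` are the functions computed by the gates of a real circuit whose input is a
graph with the vertices `0, ..., n-1`: the gates outside `N` are arbitrary nondecreasing functions
of two real numbers, the gates in `N` arbitrary nonincreasing functions of one real number (for
instance NOT gates, with the values `0` and `1`), and the outputs of the gates in `N` form at most
`m` different vectors (at most `2 ^ T` for `T` NOT gates). -/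
def IsNotCircuit {n s : ℕ} (k r m : ℕ) (N : Finset (Fin s))
    (F : Fin s → SimpleGraph (Fin n) → ℝ) : Prop :=
  (Set.range fun (G : SimpleGraph (Fin n)) (i : N) => F i G).ncard ≤ m ∧
    ∀ i : Fin s,
      (i ∉ N ∧ ∃ (φ : ℝ → ℝ → ℝ) (g h : SimpleGraph (Fin n) → ℝ),
        (∀ a a' b b', a ≤ a' → b ≤ b' → φ a b ≤ φ a' b') ∧ IsWire k r F i g ∧ IsWire k r F i h ∧
          F i = fun G => φ (g G) (h G)) ∨
      (i ∈ N ∧ ∃ (ψ : ℝ → ℝ) (g : SimpleGraph (Fin n) → ℝ),
        (∀ a a', a ≤ a' → ψ a' ≤ ψ a) ∧ IsWire k r F i g ∧ F i = fun G => ψ (g G))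

end Pool.Agent.Lib.MP_cff830_lc.MR
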