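import Pool.Agent.Lib.MP_cff830_lc.NR.Add

/-!
# Elimination of the NOT gates
-/

set_option autoImplicit false

namespace Pool.Agent.Lib.MP_cff830_lc.MR.NR

open Finset

/-! ### Squeezing -/

theorem value_mono {n k r : ℕ} {g : SimpleGraph (Fin n) → ℝ} (hg : IsValue k r g)
    {G G' : SimpleGraph (Fin n)} (h : G ≤ G') : g G ≤ g G' := by
  rcases hg with ⟨w, hw, h1 | ⟨j, -, -, h1 | h1⟩⟩ | ⟨S, -, h1⟩
  · rw [h1, h1]
    exact edge_mono h w hw
  · rw [h1, h1]
    exact local_mono h j w hw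
  · rw [h1, h1]
    exact sdp_mono h j w hw
  · exact h1 G G' fun u _ v _ huv => h huv

/-- If the gates in `N` have the same values at both ends of an interval of graphs, they are
constant on it. -/
theorem squeeze {n s k r m : ℕ} {N : Finset (Fin s)} {F : Fin s → SimpleGraph (Fin n) → ℝ}
    (hF : IsNotCircuit k r m N F) {G₁ G₂ G₃ : SimpleGraph (Fin n)} (h12 : G₁ ≤ G₂)
    (h23 : G₂ ≤ G₃) (hN : ∀ i ∈ N, F i G₁ = F i G₃) :
    ∀ (l : ℕ) (i : Fin s), (i : ℕ) = l →
      (F i G₁ ≤ F i G₂ ∧ F i G₂ ≤ F i G₃) ∧ (i ∈ N → F i G₂ = F i G₁) := by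
  intro l
  induction l using Nat.strong_induction_on with
  | _ l ih =>
    intro i hil
    have hw : ∀ g, IsWire k r F i g → g G₁ ≤ g G₂ ∧ g G₂ ≤ g G₃ := by
      rintro g (hg | ⟨j, hj, rfl⟩)
      · exact ⟨value_mono hg h12, value_mono hg h23⟩
      · exact (ih j (by omega) j rfl).1
    rcases hF.2 i with ⟨hi, φ, g, h, hφ, hg, hh, hFi⟩ | ⟨hi, ψ, g, hψ, hg, hFi⟩
    · obtain ⟨g1, g2⟩ := hw g hg
      obtain ⟨h1, h2⟩ := hw h hh
      refine ⟨?_, fun h3 => absurd h3 hi⟩
      rw [hFi]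
      exact ⟨hφ _ _ _ _ g1 h1, hφ _ _ _ _ g2 h2⟩
    · obtain ⟨g1, g2⟩ := hw g hg
      have h1 := hN i hi
      have h2 : F i G₂ ≤ F i G₁ := by
        rw [hFi]
        exact hψ _ _ g1
      have h3 : F i G₃ ≤ F i G₂ := by
        rw [hFi]
        exact hψ _ _ g2
      have h4 : F i G₂ = F i G₁ := le_antisymm h2 (h1.le.trans h3)
      refine ⟨⟨h4.ge, ?_⟩, fun _ => h4⟩
      rw [h4]
      exact h1.le

/-! ### Blocks -/

/-- The blocks with numbers below `j` are complete graphs, all others are empty. -/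
def chain (n q j : ℕ) : SimpleGraph (Fin n) where
  Adj u v := u ≠ v ∧ (u : ℕ) / q = (v : ℕ) / q ∧ (u : ℕ) / q < j
  symm := ⟨fun u v h => ⟨h.1.symm, h.2.1.symm, h.2.1 ▸ h.2.2⟩⟩
  loopless := ⟨fun u h => h.1 rfl⟩

theorem chain_adj {n q j : ℕ} {u v : Fin n} : (chain n q j).Adj u v ↔
    u ≠ v ∧ (u : ℕ) / q = (v : ℕ) / q ∧ (u : ℕ) / q < j := Iff.rfl

theorem chain_le {n q i j : ℕ} (h : i ≤ j) : chain n q i ≤ chain n q j :=
  fun _ _ h1 => ⟨h1.1, h1.2.1, lt_of_lt_of_le h1.2.2 h⟩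

/-- Block number `j`. -/
def blk (n q j : ℕ) (h : (j + 1) * q ≤ n) : Fin q ↪ Fin n where
  toFun a := ⟨j * q + a, by
    have := a.2
    rw [Nat.add_mul, Nat.one_mul] at h
    omega⟩
  inj' a b hab := by
    have := Fin.mk.inj_iff.1 hab
    exact Fin.ext (by omega)

theorem blk_div {n q j : ℕ} (h : (j + 1) * q ≤ n) (a : Fin q) :
    ((blk n q j h a : Fin n) : ℕ) / q = j := by
  show (j * q + a) / q = j
  have hq : 0 < q := lt_of_le_of_lt (Nat.zero_le _) a.2
  rw [Nat.add_comm, Nat.add_mul_div_right _ _ hq, Nat.div_eq_of_lt a.2, Nat.zero_add]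

theorem chain_blk {n q j : ℕ} (h : (j + 1) * q ≤ n) (u v : Fin n)
    (huv : (chain n q j).Adj u v) : u ∉ Set.range (blk n q j h) := by
  rintro ⟨a, rfl⟩
  have := huv.2.2
  rw [blk_div h a] at this
  exact lt_irrefl _ this

/-- Put the graph `X` on block number `j`. -/
def put {n q j : ℕ} (h : (j + 1) * q ≤ n) (X : SimpleGraph (Fin q)) : SimpleGraph (Fin n) :=
  chain n q j ⊔ X.map (blk n q j h)

theorem le_put {n q j : ℕ} (h : (j + 1) * q ≤ n) (X : SimpleGraph (Fin q)) :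
    chain n q j ≤ put h X := le_sup_left

theorem put_le {n q j : ℕ} (h : (j + 1) * q ≤ n) (X : SimpleGraph (Fin q)) :
    put h X ≤ chain n q (j + 1) := by
  refine sup_le (chain_le (Nat.le_succ j)) ?_
  intro u v huv
  rw [SimpleGraph.map_adj] at huv
  obtain ⟨a, b, hab, rfl, rfl⟩ := huv
  refine ⟨fun h1 => hab.ne ((blk n q j h).injective h1), ?_, ?_⟩
  · rw [blk_div, blk_div]
  · rw [blk_div]
    exact Nat.lt_succ_self j

/-- Some block survives. -/
theorem exists_block {n s k r m q : ℕ} {N : Finset (Fin s)}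
    {F : Fin s → SimpleGraph (Fin n) → ℝ} (hF : IsNotCircuit k r m N F) :
    ∃ j < m, ∀ i ∈ N, F i (chain n q j) = F i (chain n q (j + 1)) := by
  classical
  set p : Fin (m + 1) → (N → ℝ) := fun j i => F i (chain n q j) with hp
  have h1 : ¬ Function.Injective p := by
    intro hinj
    have h2 : (Set.range p).ncard = m + 1 := by
      rw [← Set.image_univ, Set.ncard_image_of_injective _ hinj, Set.ncard_univ, Nat.card_fin]
    have h3 : Set.range p ⊆ Set.range fun (G : SimpleGraph (Fin n)) (i : N) => F i G := by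
      rintro _ ⟨j, rfl⟩
      exact ⟨_, rfl⟩
    have h4 := Set.ncard_le_ncard h3 (Set.finite_range _)
    have := hF.1
    omega
  have h2 : ∃ a b : Fin (m + 1), a < b ∧ p a = p b := by
    by_contra hcon
    push Not at hcon
    apply h1
    intro a b hab
    rcases lt_trichotomy a b with h | h | h
    · exact absurd hab (hcon a b h)
    · exact h
    · exact absurd hab.symm (hcon b a h)
  obtain ⟨a, b, hab, hpab⟩ := h2
  have hab' : (a : ℕ) < b := hab
  have hb := b.2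
  refine ⟨a, by omega, fun i hi => ?_⟩
  have h3 := (squeeze hF (G₁ := chain n q a) (G₂ := chain n q (a + 1)) (G₃ := chain n q b)
    (chain_le (Nat.le_succ _)) (chain_le (by omega)) (fun i hi => congrFun hpab ⟨i, hi⟩)
    i i rfl).2 hi
  exact h3.symm

/-! ### The remaining circuit -/

theorem leaf_const {q k : ℕ} (c : ℝ) : IsLeaf k (fun _ : SimpleGraph (Fin q) => c) :=
  Or.inr ⟨∅, by simp, fun _ _ _ => le_rfl⟩

theorem wire_put {n s k q j : ℕ} {F : Fin s → SimpleGraph (Fin n) → ℝ}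
    (h : (j + 1) * q ≤ n) (i : ℕ) {g : SimpleGraph (Fin n) → ℝ} (hg : IsWire k q F i g) :
    ∃ (c : ℝ) (g' : SimpleGraph (Fin q) → ℝ),
      IsSignal k (fun i X => F i (put h X)) i g' ∧ ∀ X, g (put h X) = c + g' X := by
  classical
  have he : ∀ u v, (chain n q j).Adj u v → u ∉ Set.range (blk n q j h) := chain_blk h
  rcases hg with (⟨w, hw, h1⟩ | ⟨S, hS, h1⟩) | ⟨l, hl, rfl⟩
  · have hw' : ∀ a, 0 ≤ (fun a => w (blk n q j h a)) a := fun a => hw _
    rcases h1 with h1 | ⟨d, hd, hdk, h1 | h1⟩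
    · refine ⟨edgeLP (chain n q j) w, fun X => edgeLP X fun a => w (blk n q j h a),
        Or.inl (Or.inl ⟨_, hw', Or.inl fun _ => rfl⟩), fun X => ?_⟩
      rw [h1]
      exact edge_add _ _ he X w hw
    · refine ⟨localLP (chain n q j) d w, fun X => localLP X d fun a => w (blk n q j h a),
        Or.inl (Or.inl ⟨_, hw', Or.inr fun X => ⟨?_, ?_⟩⟩), fun X => ?_⟩
      · exact RelAux.triangle_le_local X d _ hd hw'
      · exact (RelAux.local_le_sdp X d _ hw').trans (RelAux.sdp_mono X _ hdk hw')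
      · rw [h1]
        exact local_add _ _ he X d w hw
    · refine ⟨sdpValue (chain n q j) d w, fun X => sdpValue X d fun a => w (blk n q j h a),
        Or.inl (Or.inl ⟨_, hw', Or.inr fun X => ⟨?_, ?_⟩⟩), fun X => ?_⟩
      · exact (RelAux.triangle_le_local X d _ hd hw').trans (RelAux.local_le_sdp X d _ hw')
      · exact RelAux.sdp_mono X _ hdk hw'
      · rw [h1]
        convert sdp_add _ _ he X d w hw using 2
        rfl
  · refine ⟨0, fun X => g (put h X), Or.inl (Or.inr ⟨Finset.univ.filter fun a =>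
      blk n q j h a ∈ S, ?_, fun X X' hX => ?_⟩), fun X => (zero_add _).symm⟩
    · refine le_trans (Nat.pow_le_pow_left ?_ 3) hS
      refine Finset.card_le_card_of_injOn (blk n q j h) ?_ (blk n q j h).injective.injOn
      intro a ha
      exact (Finset.mem_filter.1 ha).2
    · refine h1 _ _ fun u hu v hv huv => ?_
      rcases (adj_iff _ _ X u v).1 huv with h2 | ⟨a, b, hab, rfl, rfl⟩
      · exact (adj_iff _ _ X' u v).2 (Or.inl h2)
      · exact (adj_iff _ _ X' _ _).2 (Or.inr ⟨a, b, hX a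
          (Finset.mem_filter.2 ⟨Finset.mem_univ _, hu⟩) b
          (Finset.mem_filter.2 ⟨Finset.mem_univ _, hv⟩) hab, rfl, rfl⟩)
  · exact ⟨0, fun X => F l (put h X), Or.inr ⟨l, hl, rfl⟩, fun X => (zero_add _).symm⟩

theorem circuit_put {n s k m q j : ℕ} {N : Finset (Fin s)}
    {F : Fin s → SimpleGraph (Fin n) → ℝ} (hF : IsNotCircuit k q m N F)
    (h : (j + 1) * q ≤ n) (hN : ∀ i ∈ N, F i (chain n q j) = F i (chain n q (j + 1))) :
    IsCircuit k fun (i : Fin s) (X : SimpleGraph (Fin q)) => F i (put h X) := by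
  intro i
  rcases hF.2 i with ⟨-, φ, g, g₂, hφ, hg, hg₂, hFi⟩ | ⟨hi, -⟩
  · obtain ⟨c, g', h1, h2⟩ := wire_put h i hg
    obtain ⟨d, g₂', h3, h4⟩ := wire_put h i hg₂
    refine ⟨fun a b => φ (c + a) (d + b), g', g₂', fun a a' b b' ha hb =>
      hφ _ _ _ _ (by linarith) (by linarith), h1, h3, ?_⟩
    funext X
    show F i (put h X) = φ (c + g' X) (d + g₂' X)
    rw [hFi, ← h2, ← h4]
  · refine ⟨fun _ _ => F i (chain n q j), fun _ => 0, fun _ => 0, fun _ _ _ _ _ _ => le_rfl,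
      Or.inl (leaf_const 0), Or.inl (leaf_const 0), ?_⟩
    funext X
    exact (squeeze hF (le_put h X) (put_le h X) hN i i rfl).2 hi

end Pool.Agent.Lib.MP_cff830_lc.MR.NR
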