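import Pool.Agent.Lib.MP_cff830_lc.NR.Elim
import Pool.Agent.Lib.MP_cff830_lc.MR.StmtsX59

/-!
# Circuits with NOT gates: the theorem
-/

set_option autoImplicit false

namespace Pool.Agent.Lib.MP_cff830_lc.MR.NR

open Finset

/-- The weights. -/
def wq (n q m M : ℕ) (v : Fin n) : ℕ := M ^ min ((v : ℕ) / q) m

theorem card_block {n q j : ℕ} (hq : 0 < q) :
    (Finset.univ.filter fun v : Fin n => (v : ℕ) / q = j).card ≤ q := by
  have h : (Finset.univ.filter fun v : Fin n => (v : ℕ) / q = j).card ≤ (Finset.range q).card := by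
    refine Finset.card_le_card_of_injOn (fun v => (v : ℕ) % q) ?_ ?_
    · intro v _
      exact Finset.mem_coe.2 (Finset.mem_range.2 (Nat.mod_lt _ hq))
    · intro u hu v hv huv
      have hu' : (u : ℕ) / q = j := (Finset.mem_filter.1 (Finset.mem_coe.1 hu)).2
      have hv' : (v : ℕ) / q = j := (Finset.mem_filter.1 (Finset.mem_coe.1 hv)).2
      have huv' : (u : ℕ) % q = v % q := huv
      refine Fin.ext ?_
      rw [← Nat.div_add_mod (u : ℕ) q, ← Nat.div_add_mod (v : ℕ) q, hu', hv', huv']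
  rwa [Finset.card_range] at h

theorem sum_below {n q m M : ℕ} (hq : 0 < q) : ∀ j, j ≤ m →
    ∑ v ∈ Finset.univ.filter (fun v : Fin n => (v : ℕ) / q < j), (wq n q m M v : ℝ) ≤
      q * ∑ b ∈ Finset.range j, (M : ℝ) ^ b := by
  intro j
  induction j with
  | zero => intro _; simp
  | succ j ih =>
    intro hj
    have h1 : (Finset.univ.filter fun v : Fin n => (v : ℕ) / q < j + 1) =
        (Finset.univ.filter fun v : Fin n => (v : ℕ) / q < j) ∪
          Finset.univ.filter fun v : Fin n => (v : ℕ) / q = j := by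
      ext v
      simp only [Finset.mem_filter, Finset.mem_univ, true_and, Finset.mem_union]
      omega
    have h2 : Disjoint (Finset.univ.filter fun v : Fin n => (v : ℕ) / q < j)
        (Finset.univ.filter fun v : Fin n => (v : ℕ) / q = j) := by
      rw [Finset.disjoint_left]
      intro v hv hv'
      have := (Finset.mem_filter.1 hv).2
      have := (Finset.mem_filter.1 hv').2
      omega
    rw [h1, Finset.sum_union h2, Finset.sum_range_succ, mul_add]
    refine add_le_add (ih (by omega)) ?_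
    have h3 : ∀ v ∈ Finset.univ.filter (fun v : Fin n => (v : ℕ) / q = j),
        (wq n q m M v : ℝ) = (M : ℝ) ^ j := by
      intro v hv
      have hv' := (Finset.mem_filter.1 hv).2
      rw [wq, hv', min_eq_left (by omega)]
      push_cast
      rfl
    rw [Finset.sum_congr rfl h3, Finset.sum_const, nsmul_eq_mul]
    exact mul_le_mul_of_nonneg_right (by exact_mod_cast card_block hq) (by positivity)

theorem wq_blk {n q m M j : ℕ} (h : (j + 1) * q ≤ n) (hj : j < m) (a : Fin q) :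
    (wq n q m M (blk n q j h a) : ℝ) = (M : ℝ) ^ j := by
  rw [wq, blk_div, min_eq_left (by omega)]
  push_cast
  rfl

theorem cover_lower {n q m M j : ℕ} (h : (j + 1) * q ≤ n) (hj : j < m)
    (X : SimpleGraph (Fin q)) :
    (M : ℝ) ^ j * minCover X (fun _ => 1) ≤ minCover (put h X) fun v => (wq n q m M v : ℝ) := by
  classical
  obtain ⟨C, hC, hCs⟩ := RelAux.cover_att (put h X) fun v => (wq n q m M v : ℝ)
  rw [← hCs]
  set C' : Finset (Fin q) := Finset.univ.filter fun a => blk n q j h a ∈ C with hC'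
  have h1 : IsVertexCover X C' := by
    intro a b hab
    rcases hC _ _ ((adj_iff (blk n q j h) (chain n q j) X _ _).2
      (Or.inr ⟨a, b, hab, rfl, rfl⟩)) with h2 | h2
    · exact Or.inl (Finset.mem_filter.2 ⟨Finset.mem_univ _, h2⟩)
    · exact Or.inr (Finset.mem_filter.2 ⟨Finset.mem_univ _, h2⟩)
  have h2 : minCover X (fun _ => 1) ≤ (C'.card : ℝ) := by
    refine (RelAux.cover_le X (fun _ => 1) (fun _ => zero_le_one) h1).trans (le_of_eq ?_)
    simp
  have h3 : C'.map (blk n q j h) ⊆ C := by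
    intro v hv
    obtain ⟨a, ha, rfl⟩ := Finset.mem_map.1 hv
    exact (Finset.mem_filter.1 ha).2
  have h4 : ∑ v ∈ C'.map (blk n q j h), (wq n q m M v : ℝ) ≤ ∑ v ∈ C, (wq n q m M v : ℝ) :=
    Finset.sum_le_sum_of_subset_of_nonneg h3 fun _ _ _ => Nat.cast_nonneg _
  refine le_trans ?_ h4
  rw [Finset.sum_map, Finset.sum_congr rfl fun a _ => wq_blk h hj a, Finset.sum_const,
    nsmul_eq_mul, mul_comm]
  exact mul_le_mul_of_nonneg_right h2 (by positivity)

theorem cover_upper {n q m M j : ℕ} (h : (j + 1) * q ≤ n) (hj : j < m) (hq : 0 < q)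
    (X : SimpleGraph (Fin q)) :
    (minCover (put h X) fun v => (wq n q m M v : ℝ)) ≤
      (M : ℝ) ^ j * minCover X (fun _ => 1) + q * ∑ b ∈ Finset.range j, (M : ℝ) ^ b := by
  classical
  obtain ⟨C', hC', hCs⟩ := RelAux.cover_att X fun _ => 1
  have h1 : IsVertexCover (put h X)
      ((Finset.univ.filter fun v : Fin n => (v : ℕ) / q < j) ∪ C'.map (blk n q j h)) := by
    intro u v huv
    rcases (adj_iff (blk n q j h) (chain n q j) X u v).1 huv with h2 | ⟨a, b, hab, rfl, rfl⟩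
    · exact Or.inl (Finset.mem_union_left _ (Finset.mem_filter.2 ⟨Finset.mem_univ _, h2.2.2⟩))
    · rcases hC' a b hab with h3 | h3
      · exact Or.inl (Finset.mem_union_right _ (Finset.mem_map_of_mem _ h3))
      · exact Or.inr (Finset.mem_union_right _ (Finset.mem_map_of_mem _ h3))
  refine (RelAux.cover_le _ _ (fun _ => Nat.cast_nonneg _) h1).trans ?_
  have hsu : ∀ s t : Finset (Fin n), ∑ v ∈ s ∪ t, (wq n q m M v : ℝ) ≤
      ∑ v ∈ s, (wq n q m M v : ℝ) + ∑ v ∈ t, (wq n q m M v : ℝ) := by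
    intro s t
    rw [← Finset.sum_union_inter]
    exact le_add_of_nonneg_right (Finset.sum_nonneg fun _ _ => Nat.cast_nonneg _)
  refine (hsu _ _).trans ?_
  rw [add_comm]
  refine add_le_add ?_ (sum_below hq j hj.le)
  rw [Finset.sum_map, Finset.sum_congr rfl fun a _ => wq_blk h hj a, Finset.sum_const,
    nsmul_eq_mul, ← hCs, mul_comm]
  simp

theorem cover_nonneg {V : Type} [Fintype V] (G : SimpleGraph V) (w : V → ℝ)
    (hw : ∀ v, 0 ≤ w v) : 0 ≤ minCover G w := by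
  obtain ⟨C, -, h⟩ := RelAux.cover_att G w
  rw [← h]
  exact Finset.sum_nonneg fun v _ => hw v

/-- The theorem on circuits with NOT gates, from the theorem on monotone circuits. -/
theorem main_not (hMR : ∀ ε : ℝ, 0 < ε → ∃ C : ℕ, ∀ k n : ℕ, 2 ≤ k → 2 ^ (C * k ^ 2) ≤ n →
    ∀ (s : ℕ) (F : Fin s → SimpleGraph (Fin n) → ℝ), IsCircuit k F → ∀ o : Fin s,
      ((∀ G, minCover G (fun _ => 1) ≤ F o G ∧ F o G ≤ (2 - ε) * minCover G fun _ => 1) ∨
        ∀ G G', (1 - ε) * (n : ℝ) ≤ minCover G (fun _ => 1) →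
          minCover G' (fun _ => 1) ≤ (1 / 2 + ε) * (n : ℝ) → F o G' < F o G) →
        (2 : ℝ) ^ ((n : ℝ) ^ (1 / 30 : ℝ)) ≤ (s : ℝ)) :
    ∀ ε : ℝ, 0 < ε → ∃ C : ℕ, ∀ k m n : ℕ, 2 ≤ k → 1 ≤ m → 2 ^ (C * k ^ 2) ≤ n / m →
      ∃ w : Fin n → ℕ, (∀ v, 1 ≤ w v ∧ w v ≤ C ^ m) ∧
        ∀ (s : ℕ) (N : Finset (Fin s)) (F : Fin s → SimpleGraph (Fin n) → ℝ),
          IsNotCircuit k (n / m) m N F → ∀ o : Fin s,
            (∀ G, minCover G (fun v => (w v : ℝ)) ≤ F o G ∧
              F o G ≤ (2 - ε) * minCover G fun v => (w v : ℝ)) →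
              (2 : ℝ) ^ (((n / m : ℕ) : ℝ) ^ (1 / 30 : ℝ)) ≤ (s : ℝ) := by
  intro ε hε
  set ε₁ : ℝ := min ε 1 with hε₁
  have hε₁0 : 0 < ε₁ := lt_min hε one_pos
  have hε₁1 : ε₁ ≤ 1 := min_le_right _ _
  have hε₁ε : ε₁ ≤ ε := min_le_left _ _
  obtain ⟨C₀, hC₀⟩ := hMR (ε₁ / 16) (by positivity)
  obtain ⟨M₀, hM₀⟩ := exists_nat_ge (16 / ε₁)
  refine ⟨max C₀ (M₀ + 2), ?_⟩
  intro k m n hk hm hn
  set q := n / m with hq
  set M := M₀ + 2 with hM
  have hqpos : 0 < q := lt_of_lt_of_le (by positivity) hn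
  have hn' : 2 ^ (C₀ * k ^ 2) ≤ q := by
    refine le_trans (Nat.pow_le_pow_right (by norm_num) ?_) hn
    exact Nat.mul_le_mul_right _ (le_max_left _ _)
  have hmq : m * q ≤ n := Nat.mul_div_le n m
  refine ⟨wq n q m M, fun v => ⟨Nat.one_le_pow _ _ (by omega), ?_⟩, ?_⟩
  · unfold wq
    refine (Nat.pow_le_pow_right (by omega) (min_le_right _ _)).trans ?_
    exact Nat.pow_le_pow_left (le_max_right _ _) m
  intro s N F hF o ho
  obtain ⟨j, hj, hN⟩ := exists_block (q := q) hF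
  have hjn : (j + 1) * q ≤ n := (Nat.mul_le_mul_right q (by omega)).trans hmq
  refine hC₀ k q hk hn' s _ (circuit_put hF hjn hN) o (Or.inr ?_)
  intro X X' hX hX'
  show F o (put hjn X') < F o (put hjn X)
  have hMj : (0 : ℝ) < (M : ℝ) ^ j := by positivity
  have hq0 : (0 : ℝ) < q := by exact_mod_cast hqpos
  have hMr : 16 / ε₁ ≤ (M : ℝ) - 1 := by
    rw [hM]
    push_cast
    linarith
  have hM1 : (0 : ℝ) < (M : ℝ) - 1 := lt_of_lt_of_le (by positivity) hMr
  have hgeo : (∑ b ∈ Finset.range j, (M : ℝ) ^ b) ≤ (M : ℝ) ^ j * (ε₁ / 16) := by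
    have h1 : (∑ b ∈ Finset.range j, (M : ℝ) ^ b) * ((M : ℝ) - 1) = (M : ℝ) ^ j - 1 :=
      geom_sum_mul _ _
    have h2 : (∑ b ∈ Finset.range j, (M : ℝ) ^ b) * (16 / ε₁) ≤ (M : ℝ) ^ j := by
      refine (mul_le_mul_of_nonneg_left hMr (Finset.sum_nonneg fun b _ => by positivity)).trans ?_
      rw [h1]
      linarith
    have h3 : (∑ b ∈ Finset.range j, (M : ℝ) ^ b) =
        (∑ b ∈ Finset.range j, (M : ℝ) ^ b) * (16 / ε₁) * (ε₁ / 16) := by
      field_simp
    rw [h3]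
    exact mul_le_mul_of_nonneg_right h2 (by positivity)
  have h1 := cover_lower (M := M) hjn hj X
  have h2 := cover_upper (M := M) hjn hj hqpos X'
  have h3 := (ho (put hjn X)).1
  have h4 := (ho (put hjn X')).2
  have h5 : 0 ≤ minCover (put hjn X') fun v => (wq n q m M v : ℝ) :=
    cover_nonneg _ _ fun _ => Nat.cast_nonneg _
  have h6 : F o (put hjn X') ≤ (2 - ε₁) * minCover (put hjn X') fun v => (wq n q m M v : ℝ) :=
    h4.trans (mul_le_mul_of_nonneg_right (by linarith) h5)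
  have h7 : (minCover (put hjn X') fun v => (wq n q m M v : ℝ)) ≤
      (M : ℝ) ^ j * (q * (1 / 2 + ε₁ / 16 + ε₁ / 16)) := by
    refine h2.trans ?_
    have e1 : (M : ℝ) ^ j * minCover X' (fun _ => 1) ≤
        (M : ℝ) ^ j * ((1 / 2 + ε₁ / 16) * q) := mul_le_mul_of_nonneg_left hX' hMj.le
    have e2 : (q : ℝ) * ∑ b ∈ Finset.range j, (M : ℝ) ^ b ≤ q * ((M : ℝ) ^ j * (ε₁ / 16)) :=
      mul_le_mul_of_nonneg_left hgeo hq0.le
    linarith
  have h8 : (M : ℝ) ^ j * ((1 - ε₁ / 16) * q) ≤ F o (put hjn X) :=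
    (mul_le_mul_of_nonneg_left hX hMj.le).trans (h1.trans h3)
  refine lt_of_lt_of_le (lt_of_le_of_lt (h6.trans
    (mul_le_mul_of_nonneg_left h7 (by linarith))) ?_) h8
  have h9 : (2 - ε₁) * (1 / 2 + ε₁ / 16 + ε₁ / 16) < 1 - ε₁ / 16 := by nlinarith
  have h10 : (2 - ε₁) * ((M : ℝ) ^ j * (q * (1 / 2 + ε₁ / 16 + ε₁ / 16))) =
      (M : ℝ) ^ j * (((2 - ε₁) * (1 / 2 + ε₁ / 16 + ε₁ / 16)) * q) := by ring
  rw [h10]
  exact mul_lt_mul_of_pos_left (mul_lt_mul_of_pos_right h9 hq0) hMj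

end Pool.Agent.Lib.MP_cff830_lc.MR.NR
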