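import Pool.Agent.Lib.MP_cff830_lc.NR.Defs
import Pool.Agent.Lib.MP_cff830_lc.Pull

/-!
# Products and restrictions of solutions
-/

set_option autoImplicit false
set_option linter.unusedSectionVars false

namespace Pool.Agent.Lib.MP_cff830_lc.MR.NR

open Finset

section

variable {V : Type} [Fintype V] [DecidableEq V]

/-- Independent product: `μ` outside `Z`, `ν` inside. -/
noncomputable def prd (μ ν : Finset V → Finset V → ℝ) (Z S U : Finset V) : ℝ :=
  μ (S \ Z) (U \ Z) * ν (S ∩ Z) (U ∩ Z)

theorem sum_prd (Z S : Finset V) (f g : Finset V → ℝ) :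
    ∑ U ∈ S.powerset, f (U \ Z) * g (U ∩ Z) =
      (∑ U ∈ (S \ Z).powerset, f U) * ∑ U ∈ (S ∩ Z).powerset, g U := by
  rw [Finset.sum_mul_sum, ← Finset.sum_product']
  refine Finset.sum_nbij' (fun U => (U \ Z, U ∩ Z)) (fun p => p.1 ∪ p.2) ?_ ?_ ?_ ?_ ?_
  · intro U hU
    rw [Finset.mem_powerset] at hU
    rw [Finset.mem_product]
    exact ⟨Finset.mem_powerset.2 (Finset.sdiff_subset_sdiff hU (Finset.Subset.refl _)),
      Finset.mem_powerset.2 (Finset.inter_subset_inter hU (Finset.Subset.refl _))⟩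
  · rintro ⟨A, B⟩ h
    rw [Finset.mem_product, Finset.mem_powerset, Finset.mem_powerset] at h
    exact Finset.mem_powerset.2 (Finset.union_subset (h.1.trans Finset.sdiff_subset)
      (h.2.trans Finset.inter_subset_left))
  · intro U _
    exact Finset.sdiff_union_inter U Z
  · rintro ⟨A, B⟩ h
    rw [Finset.mem_product, Finset.mem_powerset, Finset.mem_powerset] at h
    have h1 : ∀ x ∈ A, x ∉ Z := fun x hx => (Finset.mem_sdiff.1 (h.1 hx)).2
    have h2 : ∀ x ∈ B, x ∈ Z := fun x hx => (Finset.mem_inter.1 (h.2 hx)).2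
    refine Prod.ext ?_ ?_
    · ext x
      have := h1 x
      have := h2 x
      simp only [Finset.mem_sdiff, Finset.mem_union]
      tauto
    · ext x
      have := h1 x
      have := h2 x
      simp only [Finset.mem_inter, Finset.mem_union]
      tauto
  · intro U _
    rfl

theorem prd_solution {μ ν : Finset V → Finset V → ℝ} {G G₁ G₂ : SimpleGraph V} {k : ℕ}
    (h₁ : IsSolution G₁ k μ) (h₂ : IsSolution G₂ k ν) (Z : Finset V)
    (hG : ∀ x y, G.Adj x y → (x ∉ Z ∧ y ∉ Z ∧ G₁.Adj x y) ∨ (x ∈ Z ∧ y ∈ Z ∧ G₂.Adj x y)) :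
    IsSolution G k (prd μ ν Z) := by
  have c1 : ∀ A : Finset V, A.card ≤ k → (A \ Z).card ≤ k := fun A hA =>
    (Finset.card_le_card Finset.sdiff_subset).trans hA
  have c2 : ∀ A : Finset V, A.card ≤ k → (A ∩ Z).card ≤ k := fun A hA =>
    (Finset.card_le_card Finset.inter_subset_left).trans hA
  refine ⟨?_, ?_, ?_, ?_, ?_⟩
  · intro S U
    exact mul_nonneg (h₁.nonneg _ _) (h₂.nonneg _ _)
  · intro S hS
    unfold prd
    rw [sum_prd Z S (fun U => μ (S \ Z) U) fun U => ν (S ∩ Z) U, h₁.total _ (c1 S hS),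
      h₂.total _ (c2 S hS), one_mul]
  · intro S T hST hT U hU
    have hs1 : S \ Z ⊆ T \ Z := Finset.sdiff_subset_sdiff hST (Finset.Subset.refl _)
    have hs2 : S ∩ Z ⊆ T ∩ Z := Finset.inter_subset_inter hST (Finset.Subset.refl _)
    have hu1 : U \ Z ⊆ S \ Z := Finset.sdiff_subset_sdiff hU (Finset.Subset.refl _)
    have hu2 : U ∩ Z ⊆ S ∩ Z := Finset.inter_subset_inter hU (Finset.Subset.refl _)
    unfold prd
    rw [h₁.consistent _ _ hs1 (c1 T hT) _ hu1, h₂.consistent _ _ hs2 (c2 T hT) _ hu2,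
      Finset.sum_filter, Finset.sum_filter, Finset.sum_filter,
      ← sum_prd Z T (fun W => if W ∩ (S \ Z) = U \ Z then μ (T \ Z) W else 0)
        fun W => if W ∩ (S ∩ Z) = U ∩ Z then ν (T ∩ Z) W else 0]
    refine Finset.sum_congr rfl fun W _ => ?_
    by_cases h : W ∩ S = U
    · rw [if_pos h, if_pos, if_pos]
      · ext x
        have : x ∈ W ∩ S ↔ x ∈ U := by rw [h]
        simp only [Finset.mem_inter] at this ⊢
        tauto
      · ext x
        have : x ∈ W ∩ S ↔ x ∈ U := by rw [h]
        simp only [Finset.mem_inter, Finset.mem_sdiff] at this ⊢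
        tauto
    · rw [if_neg h]
      by_cases h3 : W \ Z ∩ (S \ Z) = U \ Z
      · by_cases h4 : W ∩ Z ∩ (S ∩ Z) = U ∩ Z
        · exfalso
          apply h
          ext x
          have h5 : x ∈ W \ Z ∩ (S \ Z) ↔ x ∈ U \ Z := by rw [h3]
          have h6 : x ∈ W ∩ Z ∩ (S ∩ Z) ↔ x ∈ U ∩ Z := by rw [h4]
          simp only [Finset.mem_inter, Finset.mem_sdiff] at h5 h6 ⊢
          by_cases hx : x ∈ Z <;> tauto
        · rw [if_neg h4, mul_zero]
      · rw [if_neg h3, zero_mul]
  · intro S hS U hU hne x hx y hy hxy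
    unfold prd at hne
    rcases hG x y hxy with ⟨h3, h4, h5⟩ | ⟨h3, h4, h5⟩
    · rcases h₁.cover _ (c1 S hS) _ (Finset.sdiff_subset_sdiff hU (Finset.Subset.refl _))
        (left_ne_zero_of_mul hne) x (Finset.mem_sdiff.2 ⟨hx, h3⟩) y
        (Finset.mem_sdiff.2 ⟨hy, h4⟩) h5 with h | h
      · exact Or.inl (Finset.mem_sdiff.1 h).1
      · exact Or.inr (Finset.mem_sdiff.1 h).1
    · rcases h₂.cover _ (c2 S hS) _ (Finset.inter_subset_inter hU (Finset.Subset.refl _))
        (right_ne_zero_of_mul hne) x (Finset.mem_inter.2 ⟨hx, h3⟩) y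
        (Finset.mem_inter.2 ⟨hy, h4⟩) h5 with h | h
      · exact Or.inl (Finset.mem_inter.1 h).1
      · exact Or.inr (Finset.mem_inter.1 h).1
  · set φ₁ : Option V → Option V := fun a => a.bind fun v => if v ∈ Z then none else some v with hφ
    set φ₂ : Option V → Option V := fun a => a.bind fun v => if v ∈ Z then some v else none
      with hφ₂
    have e1 : ∀ a, (φ₁ a).toFinset = a.toFinset \ Z := by
      intro a
      rcases a with - | v
      · simp [hφ]
      · by_cases hv : v ∈ Z
        · have h1 : ({v} : Finset V) \ Z = ∅ := by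
            rw [Finset.sdiff_eq_empty_iff_subset, Finset.singleton_subset_iff]
            exact hv
          simp [hφ, hv, h1]
        · have h1 : ({v} : Finset V) \ Z = {v} := by
            rw [Finset.sdiff_eq_self_iff_disjoint, Finset.disjoint_singleton_left]
            exact hv
          simp [hφ, hv, h1]
    have e2 : ∀ a, (φ₂ a).toFinset = a.toFinset ∩ Z := by
      intro a
      rcases a with - | v
      · simp [hφ₂]
      · by_cases hv : v ∈ Z
        · have h1 : ({v} : Finset V) ∩ Z = {v} := by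
            rw [Finset.inter_eq_left, Finset.singleton_subset_iff]
            exact hv
          simp [hφ₂, hv, h1]
        · have h1 : ({v} : Finset V) ∩ Z = ∅ := Finset.singleton_inter_of_notMem hv
          simp [hφ₂, hv, h1]
    have h : momentMatrix (prd μ ν Z) = Matrix.hadamard ((momentMatrix μ).submatrix φ₁ φ₁)
        ((momentMatrix ν).submatrix φ₂ φ₂) := by
      ext a b
      rw [Matrix.hadamard_apply, Matrix.submatrix_apply, Matrix.submatrix_apply, momentMatrix,
        momentMatrix, momentMatrix, e1, e1, e2, e2, ← Finset.union_sdiff_distrib,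
        ← Finset.union_inter_distrib_right]
      rfl
    rw [h]
    exact (h₁.psd.submatrix φ₁).hadamard (h₂.psd.submatrix φ₂)

theorem solution_mono {μ : Finset V → Finset V → ℝ} {G G' : SimpleGraph V} {k : ℕ}
    (h : IsSolution G' k μ) (hG : G ≤ G') : IsSolution G k μ :=
  ⟨h.nonneg, h.total, h.consistent, fun S hS U hU hne x hx y hy hxy =>
    h.cover S hS U hU hne x hx y hy (hG hxy), h.psd⟩

end

theorem pull_solution {V V₀ : Type} [Fintype V] [DecidableEq V] [Fintype V₀] [DecidableEq V₀]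
    {G : SimpleGraph V} {G₀ : SimpleGraph V₀} {k : ℕ} {μ : Finset V₀ → Finset V₀ → ℝ}
    (h : IsSolution G₀ k μ) (φ : V → V₀) (hφ : ∀ u v, G.Adj u v → G₀.Adj (φ u) (φ v)) :
    IsSolution G k (Pull.pull φ μ) := by
  refine ⟨Pull.pull_nonneg φ μ h.nonneg, Pull.pull_total φ μ k h.total,
    fun S T hST hT U _ => Pull.pull_cons φ μ k h.consistent S T hST hT U,
    fun S hS U _ => Pull.pull_cover G G₀ φ hφ μ k h.cover S hS U, ?_⟩
  have h1 : momentMatrix (Pull.pull φ μ) =
      (momentMatrix μ).submatrix (Option.map φ) (Option.map φ) := by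
    ext a b
    rw [Matrix.submatrix_apply, momentMatrix, momentMatrix, Pull.pull_self, Finset.image_union]
    have : ∀ a : Option V, a.toFinset.image φ = (a.map φ).toFinset := by
      intro a
      rcases a with - | v <;> simp
    rw [this, this]
  rw [h1]
  exact h.psd.submatrix _

end Pool.Agent.Lib.MP_cff830_lc.MR.NR
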